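import Pool.Agent.H242.LD.Stm

/-!
# Project LD of helper242: numbers (helper225)
-/

set_option autoImplicit false

namespace Pool.Agent.H225.LD

open Real Set Metric Filter Topology
open Pool.Agent.H242.LD Pool.Agent.H242.TM

theorem ld_NUM : S_NUM := by
  intro a ha
  obtain ⟨x, hx⟩ : ∃ x : ℝ, x = |a| := ⟨_, rfl⟩
  rw [← hx] at ha ⊢
  have e1 : 2 * π * (1 / 12) = π / 6 := by ring
  rw [e1, Real.cos_pi_div_six, Real.sin_pi_div_six]
  have h3 : (1.732 : ℝ) ≤ √3 := by
    apply Real.le_sqrt_of_sq_le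
    norm_num
  have hpi := Real.pi_gt_d2
  have hpi2 := Real.pi_lt_d2
  have hx0 : 0 < x := by linarith
  have hy : 3.464 * x - 4 ≤ 4 * x * (√3 / 2) - 4 := by nlinarith
  have hy0 : 0 ≤ 4 * x * (√3 / 2) - 4 := by nlinarith
  obtain ⟨N, hN⟩ : ∃ N : ℕ, N = ⌊4 * x * (√3 / 2) - 4⌋₊ := ⟨_, rfl⟩
  have hN1 : (N : ℝ) ≤ 4 * x * (√3 / 2) - 4 := by
    rw [hN]
    exact Nat.floor_le hy0
  have hN2 : 4 * x * (√3 / 2) - 4 < N + 1 := by
    rw [hN]
    exact Nat.lt_floor_add_one _
  have hN3 : 3.04 * x ≤ N := by nlinarith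
  have hN0 : (0 : ℝ) < N := by nlinarith
  refine ⟨N, ?_, by linarith, ?_, ?_⟩
  · have h4 : (3 : ℝ) ≤ N := by nlinarith
    exact_mod_cast h4
  · have hR0 : 0 < 2 * π * x + 3 := by positivity
    have hxR : x ≤ 2 * π * x + 3 := by nlinarith
    have hlx : 0 < Real.log x := Real.log_pos (by linarith)
    have hlR : Real.log x ≤ Real.log (2 * π * x + 3) := Real.log_le_log hx0 hxR
    have hR : 0 < Real.log (2 * π * x + 3) := lt_of_lt_of_le hlx hlR
    have h5 : 2 * π * x + 3 ≤ Real.exp 1 * N := by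
      have he := Real.exp_one_gt_d9
      have h6 : 2 * π * x ≤ 6.3 * x := by nlinarith
      have h7 : 2.7 * (3.04 * x) ≤ Real.exp 1 * N :=
        mul_le_mul (by linarith) hN3 (by positivity) (by positivity)
      linarith
    have h8 : Real.log (2 * π * x + 3) ≤ 1 + Real.log N := by
      have h9 := Real.log_le_log hR0 h5
      rwa [Real.log_mul (Real.exp_pos 1).ne' hN0.ne', Real.log_exp] at h9
    have h10 : 1 - 1 / Real.log (2 * π * x + 3) ≤ Real.log N / Real.log (2 * π * x + 3) := by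
      rw [sub_le_iff_le_add, ← add_div, le_div_iff₀ hR]
      linarith
    have h11 : 1 / Real.log (2 * π * x + 3) ≤ 1 / Real.log x := one_div_le_one_div_of_le hlx hlR
    linarith
  · nlinarith

end Pool.Agent.H225.LD
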